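import Pool.Agent.Q127.HS.Main

/-!
# Proper colourings with prescribed colour class sizes (MP_2870db_co, Q1)

Every finite graph on `N` vertices with maximum degree `Δ` has, for all class sizes
`n_1, …, n_q ≤ ⌊N / (Δ + 1)⌋` with sum `N`, a proper colouring with exactly `n_i` vertices of
colour `i`. The proof adapts the short proof of the Hajnal-Szemerédi theorem of Kierstead and
Kostochka to classes of different sizes.
-/

set_option autoImplicit false

namespace Pool.Agent.Results.MP_2870db_co.PrescribedSizes

/-- Let `G` be a finite graph with maximum degree `Δ` and let `n_i`, `i < q`, be nonnegative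
integers with sum `|V(G)|`, all at most `⌊|V(G)| / (Δ + 1)⌋`. Then `G` has a proper colouring with
colours `0, …, q - 1` in which exactly `n_i` vertices have colour `i`, for every `i`. -/
theorem result (V : Type*) [Fintype V] (G : SimpleGraph V) [DecidableRel G.Adj] (q : ℕ)
    (n : Fin q → ℕ) (hsum : ∑ i, n i = Fintype.card V)
    (hn : ∀ i, n i ≤ Fintype.card V / (G.maxDegree + 1)) :
    ∃ σ : G.Coloring (Fin q), ∀ i, (Finset.univ.filter fun v => σ v = i).card = n i := by
  classical
  rcases Nat.eq_zero_or_pos q with hq | hq
  · subst hq
    have hV : IsEmpty V := by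
      rw [← Fintype.card_eq_zero_iff, ← hsum]
      simp
    exact ⟨SimpleGraph.Coloring.mk (fun v => (hV.false v).elim) (fun {v} => (hV.false v).elim),
      fun i => i.elim0⟩
  · have : Nonempty (Fin q) := ⟨⟨0, hq⟩⟩
    obtain ⟨g, hg, hgc⟩ := Q127.HS.exact_colouring (V := V) (ι := Fin q) _ G Finset.univ
      Finset.univ n G.maxDegree (Fintype.card V / (G.maxDegree + 1)) rfl
      (by
        intro v _
        refine le_trans (le_of_eq ?_) (G.degree_le_maxDegree v)
        unfold Q127.HS.dg
        rw [← G.card_neighborFinset_eq_degree v]
        congr 1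
        ext w
        simp)
      (fun i _ => hn i) (by rw [Finset.card_univ]; exact Nat.mul_div_le _ _)
      (by rw [Finset.card_univ]; exact hsum)
    refine ⟨SimpleGraph.Coloring.mk g (fun {v w} h =>
      hg.2 v (Finset.mem_univ v) w (Finset.mem_univ w) h), fun i => ?_⟩
    exact hgc i (Finset.mem_univ i)

end Pool.Agent.Results.MP_2870db_co.PrescribedSizes
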